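import Pool.Agent.Lib.MP_a24849_co.Main

open Pool.Agent.Lib.MP_a24849_co

/-- For every `k` there are a finite simple graph `G` and a family `P` of partitions of the
neighbourhoods of its vertices such that the accurate domination number of the `P`-corona of `G`
exceeds `|V(G)| + k`. -/
theorem Pool.Agent.Results.MP_a24849_co.Unbounded.result :
    ∀ k : ℕ, ∃ (V : Type) (_ : Fintype V) (_ : DecidableEq V) (G : SimpleGraph V)
      (_ : DecidableRel G.Adj) (P : ∀ v : V, Finpartition (G.neighborFinset v)),
      Fintype.card V + k < accurateDominationNumber (corona G P) :=
  unbounded
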